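import Pool.Agent.Helper693.Nef.PF
import Pool.Agent.Helper116.RR.Defs
import Pool.Agent.Helper729.NF.Defs

/-! Finite extensions of function fields: heights are multiplied by the degree; adjunction of cube
roots. -/

set_option autoImplicit false
set_option linter.all false
set_option linter.overlappingInstances false

open Module IsDedekindDomain IntermediateField

namespace H192E

open FF

section dvr

variable {k K : Type*} [Field k] [Field K] [Algebra k K] (v : Place k K)

/-- The valuation ring as a `k`-algebra. -/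
@[reducible] noncomputable def kalg : Algebra k v.O :=
  ((algebraMap k K).codRestrict v.O.toSubring (fun c => v.reg_const c)).toAlgebra

theorem O_pid : IsPrincipalIdealRing v.O := by
  refine ⟨fun I => ?_⟩
  classical
  obtain ⟨π, hπ0, hπ⟩ := v.surj
  by_cases hI : I = ⊥
  · subst hI; exact ⟨⟨0, by simp⟩⟩
  · -- minimal order
    have hne : ∃ n : ℕ, ∃ x : v.O, x ∈ I ∧ x ≠ 0 ∧ v.ord (x : K) = n := by
      obtain ⟨x, hx, hx0⟩ := Submodule.exists_mem_ne_zero_of_ne_bot hI
      have hx0' : (x : K) ≠ 0 := fun h => hx0 (Subtype.ext h)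
      have h1 : 0 ≤ v.ord (x : K) := (v.reg_iff hx0').1 x.2
      exact ⟨(v.ord (x : K)).toNat, x, hx, hx0, by omega⟩
    obtain ⟨x, hx, hx0, hxn⟩ := Nat.find_spec hne
    have hmin := fun m hm => Nat.find_min hne (m := m) hm
    refine ⟨⟨x, ?_⟩⟩
    apply le_antisymm
    · intro y hy
      by_cases hy0 : y = 0
      · subst hy0; exact Submodule.zero_mem _
      have hy0' : (y : K) ≠ 0 := fun h => hy0 (Subtype.ext h)
      have hx0' : (x : K) ≠ 0 := fun h => hx0 (Subtype.ext h)
      have h1 : 0 ≤ v.ord (y : K) := (v.reg_iff hy0').1 y.2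
      have h2 : v.ord (x : K) ≤ v.ord (y : K) := by
        by_contra hc
        push Not at hc
        refine hmin (v.ord (y : K)).toNat (by omega) ⟨y, hy, hy0, by omega⟩
      rw [Submodule.mem_span_singleton]
      refine ⟨⟨(y : K) / x, Or.inr ?_⟩, ?_⟩
      · rw [v.ord_div hy0' hx0']; omega
      · apply Subtype.ext
        change ((y : K) / x) * x = y
        field_simp
    · rw [Submodule.span_le, Set.singleton_subset_iff]; exact hx

theorem O_frac (hpid : IsPrincipalIdealRing v.O) : IsFractionRing v.O K := inferInstance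

theorem O_max (π : v.O) (hπ : v.ord (π : K) = 1) : (Ideal.span {π}).IsMaximal := by
  have hπ0 : (π : K) ≠ 0 := by
    intro h; rw [h, v.ord_zero] at hπ; exact absurd hπ (by norm_num)
  have h1 : Ideal.span {π} = IsLocalRing.maximalIdeal v.O := by
    apply le_antisymm
    · rw [Ideal.span_le, Set.singleton_subset_iff]
      change π ∈ IsLocalRing.maximalIdeal v.O
      rw [IsLocalRing.mem_maximalIdeal, mem_nonunits_iff]
      intro hu
      rw [v.isUnit_O_iff π.2] at hu
      omega
    · intro y hy
      rw [IsLocalRing.mem_maximalIdeal, mem_nonunits_iff] at hy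
      rw [Ideal.mem_span_singleton]
      by_cases hy0 : y = 0
      · subst hy0; exact dvd_zero _
      have hy0' : (y : K) ≠ 0 := fun h => hy0 (Subtype.ext h)
      have h1 : 0 ≤ v.ord (y : K) := (v.reg_iff hy0').1 y.2
      have h2 : v.ord (y : K) ≠ 0 := by
        intro h0
        exact hy ((v.isUnit_O_iff y.2).2 ⟨hy0', h0⟩)
      refine ⟨⟨(y : K) / π, Or.inr ?_⟩, ?_⟩
      · rw [v.ord_div hy0' hπ0]; omega
      · apply Subtype.ext
        change (y : K) = π * ((y : K) / π)
        field_simp
  rw [h1]
  exact IsLocalRing.maximalIdeal.isMaximal _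

end dvr

section ov

variable {k K L : Type*} [Field k] [Field K] [Algebra k K] [Field L] [Algebra k L] [Algebra K L]
  [IsScalarTower k K L]

/-- `w` lies over `v`. -/
def Over (v : Place k K) (w : Place k L) : Prop :=
  ∃ e : ℕ, 0 < e ∧ ∀ f : K, w.ord (algebraMap K L f) = e * v.ord f

theorem over_of_dom (v : Place k K) (w : Place k L)
    (h : ∀ f : K, v.Reg f → w.Reg (algebraMap K L f)) {π : K} (hπ : v.ord π = 1)
    (hpos : 0 < w.ord (algebraMap K L π)) :
    ∀ f : K, w.ord (algebraMap K L f) = (w.ord (algebraMap K L π)).toNat * v.ord f := by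
  have hπ0 : π ≠ 0 := by
    intro h; rw [h, v.ord_zero] at hπ; exact absurd hπ (by norm_num)
  have hunit : ∀ u : K, u ≠ 0 → v.ord u = 0 → w.ord (algebraMap K L u) = 0 := by
    intro u hu hu0
    have h1 := h u (Or.inr hu0.ge)
    have h2 := h u⁻¹ (Or.inr (by rw [v.ord_inv]; omega))
    have hu' : algebraMap K L u ≠ 0 := by simpa using hu
    rw [w.reg_iff hu'] at h1
    rw [map_inv₀, w.reg_iff (inv_ne_zero hu'), w.ord_inv] at h2
    omega
  intro f
  by_cases hf : f = 0
  · subst hf; rw [map_zero, w.ord_zero, v.ord_zero, mul_zero]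
  have h1 := hunit (f / π ^ (v.ord f)) (div_ne_zero hf (zpow_ne_zero _ hπ0)) (by
    rw [v.ord_div hf (zpow_ne_zero _ hπ0), v.ord_zpow, hπ]; ring)
  have hf' : algebraMap K L f ≠ 0 := by simpa using hf
  have hπ' : algebraMap K L π ≠ 0 := by simpa using hπ0
  rw [map_div₀, map_zpow₀, w.ord_div hf' (zpow_ne_zero _ hπ'), w.ord_zpow] at h1
  have h2 : ((w.ord (algebraMap K L π)).toNat : ℤ) = w.ord (algebraMap K L π) :=
    Int.toNat_of_nonneg hpos.le
  rw [h2]
  linarith [mul_comm (v.ord f) (w.ord (algebraMap K L π))]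

theorem over_unique {v v' : Place k K} {w : Place k L} (h : Over v w) (h' : Over v' w) :
    v = v' := by
  obtain ⟨e, he, h1⟩ := h
  obtain ⟨e', he', h2⟩ := h'
  apply Place.eq_of_le
  intro f hf h0
  have h3 : (e : ℤ) * v.ord f = e' * v'.ord f := by rw [← h1, ← h2]
  by_contra hc
  push Not at hc
  have h4 : (0 : ℤ) ≤ e * v.ord f := by positivity
  have h5 : (e' : ℤ) * v'.ord f < 0 := by
    have : (0 : ℤ) < e' := by exact_mod_cast he'
    nlinarith
  omega

/-- Every place lies over some place. -/
theorem exists_over [Algebra.IsAlgebraic K L] (w : Place k L) : ∃ v : Place k K, Over v w := by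
  classical
  have hinj : ∀ f : K, f ≠ 0 → algebraMap K L f ≠ 0 := fun f hf => by simpa using hf
  -- non trivial on `K`
  have hnt : ∃ n : ℕ, 0 < n ∧ ∃ f : K, f ≠ 0 ∧ w.ord (algebraMap K L f) = n := by
    by_contra hc
    push Not at hc
    have h0 : ∀ f : K, w.Reg (algebraMap K L f) := by
      intro f
      by_cases hf : f = 0
      · left; rw [hf, map_zero]
      right
      by_contra hneg
      push Not at hneg
      refine hc (-(w.ord (algebraMap K L f))).toNat (by omega) f⁻¹ (inv_ne_zero hf) ?_
      rw [map_inv₀, w.ord_inv]; omega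
    obtain ⟨t, ht0, ht⟩ := w.surj
    have h1 : IsIntegral K t⁻¹ := (Algebra.IsAlgebraic.isAlgebraic (R := K) t⁻¹).isIntegral
    have h2 := w.reg_of_isIntegral h0 h1
    rw [w.reg_iff (inv_ne_zero ht0), w.ord_inv] at h2
    omega
  obtain ⟨he, π, hπ0, hπ⟩ := Nat.find_spec hnt
  set e := Nat.find hnt with hedef
  have hmin := fun m hm => Nat.find_min hnt (m := m) hm
  have hdvd : ∀ f : K, (e : ℤ) ∣ w.ord (algebraMap K L f) := by
    intro f
    by_cases hf : f = 0
    · rw [hf, map_zero, w.ord_zero]; exact dvd_zero _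
    rw [Int.dvd_iff_emod_eq_zero]
    by_contra hc
    have he' : (0 : ℤ) < e := by exact_mod_cast he
    have h1 := Int.emod_nonneg (w.ord (algebraMap K L f)) he'.ne'
    have h2 := Int.emod_lt_of_pos (w.ord (algebraMap K L f)) he'
    have h3 := Int.emod_add_mul_ediv (w.ord (algebraMap K L f)) e
    refine hmin (w.ord (algebraMap K L f) % e).toNat (by omega) ⟨by omega,
      f / π ^ (w.ord (algebraMap K L f) / e), div_ne_zero hf (zpow_ne_zero _ hπ0), ?_⟩
    rw [map_div₀, map_zpow₀, w.ord_div (hinj f hf) (zpow_ne_zero _ (hinj π hπ0)), w.ord_zpow, hπ]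
    rw [Int.toNat_of_nonneg h1]
    linarith [mul_comm (w.ord (algebraMap K L f) / (e : ℤ)) (e : ℤ)]
  have he0 : (e : ℤ) ≠ 0 := by exact_mod_cast he.ne'
  have hdiv : ∀ f : K, w.ord (algebraMap K L f) = e * (w.ord (algebraMap K L f) / e) := fun f =>
    (Int.mul_ediv_cancel' (hdvd f)).symm
  have hle : (0 : ℤ) < e := by exact_mod_cast he
  refine ⟨⟨fun f => w.ord (algebraMap K L f) / e, ?_, ?_, ?_, ?_, ?_⟩, e, he, hdiv⟩
  · rw [map_zero, w.ord_zero]; simp
  · intro f g hf hg
    rw [map_mul, w.ord_mul (hinj f hf) (hinj g hg), Int.add_ediv_of_dvd_left (hdvd f)]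
  · intro f g hf hg hfg
    have h1 := w.ord_add (hinj f hf) (hinj g hg) (by rw [← map_add]; exact hinj _ hfg)
    rw [← map_add] at h1
    rcases le_total (w.ord (algebraMap K L f)) (w.ord (algebraMap K L g)) with h | h
    · rw [min_eq_left h] at h1
      exact (min_le_left _ _).trans (Int.ediv_le_ediv hle h1)
    · rw [min_eq_right h] at h1
      exact (min_le_right _ _).trans (Int.ediv_le_ediv hle h1)
  · intro c hc
    rw [← IsScalarTower.algebraMap_apply k K L, w.ord_const hc]; simp
  · exact ⟨π, hπ0, by rw [hπ]; exact Int.ediv_self he0⟩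

theorem relf_eq_one [IsAlgClosed k] [IsFF k L] (w : Place k L) (A : Type*) [CommRing A]
    [Algebra A L] (h : ∀ c : k, ∃ a : A, algebraMap A L a = algebraMap k L c) : w.relf A = 1 := by
  have h1 : finrank k w.RF = 1 := place_deg_one w
  have hfin : FiniteDimensional k w.RF := FiniteDimensional.of_finrank_pos (by omega)
  have hbij : Function.Bijective (algebraMap k w.RF) :=
    IsAlgClosed.algebraMap_bijective_of_isIntegral
  unfold Place.relf
  have h2 : Subfield.closure (Set.range fun a : A => w.red (algebraMap A L a)) = ⊤ := by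
    rw [eq_top_iff]
    intro x _
    obtain ⟨c, rfl⟩ := hbij.2 x
    obtain ⟨a, ha⟩ := h c
    refine Subfield.subset_closure ⟨a, ?_⟩
    change w.red (algebraMap A L a) = _
    rw [ha]; rfl
  rw [h2]
  exact (Algebra.finrank_eq_of_equiv_equiv Subfield.topEquiv (RingEquiv.refl w.RF)
    (by ext x; rfl)).trans (Module.finrank_self _)

/-- The fundamental identity over one place. -/
theorem fund [IsAlgClosed k] [IsFF k L] [FiniteDimensional K L] [Algebra.IsSeparable K L]
    (v : Place k K) : ∃ (S : Finset (Place k L)) (e : Place k L → ℕ),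
      (∀ w, w ∈ S ↔ Over v w) ∧ (∀ w ∈ S, ∀ f : K, w.ord (algebraMap K L f) = e w * v.ord f) ∧
      ∑ w ∈ S, e w = finrank K L := by
  classical
  obtain ⟨π, hπ0, hπ⟩ := v.surj
  letI := kalg v
  haveI : IsScalarTower k v.O K := IsScalarTower.of_algebraMap_eq fun c => rfl
  haveI : IsPrincipalIdealRing v.O := O_pid v
  haveI : IsDedekindDomain v.O := inferInstance
  letI : Algebra v.O L := ((algebraMap K L).comp (algebraMap v.O K)).toAlgebra
  haveI : IsScalarTower v.O K L := IsScalarTower.of_algebraMap_eq fun c => rfl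
  haveI : IsScalarTower k v.O L := IsScalarTower.of_algebraMap_eq fun c => by
    change algebraMap k L c = algebraMap K L (algebraMap v.O K (algebraMap k v.O c))
    rw [← IsScalarTower.algebraMap_apply k v.O K, ← IsScalarTower.algebraMap_apply k K L]
  let ϖ : v.O := ⟨π, Or.inr (by omega)⟩
  have hϖ0 : ϖ ≠ 0 := fun h => hπ0 (congrArg Subtype.val h)
  obtain ⟨S, hS, -, hsum⟩ := fundamental (k := k) (A := v.O) (L := L) K ϖ hϖ0 (O_max v ϖ hπ)
  have hdom : ∀ w : Place k L, (∀ a : v.O, w.Reg (algebraMap v.O L a)) ↔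
      ∀ f : K, v.Reg f → w.Reg (algebraMap K L f) :=
    fun w => ⟨fun h f hf => h ⟨f, hf⟩, fun h a => h a.1 a.2⟩
  refine ⟨S, fun w => (w.ord (algebraMap K L π)).toNat, ?_, ?_, ?_⟩
  · intro w
    rw [hS, hdom]
    constructor
    · rintro ⟨h1, h2⟩
      have h2' : 0 < w.ord (algebraMap K L π) := h2
      exact ⟨(w.ord (algebraMap K L π)).toNat, by omega, over_of_dom v w h1 hπ h2'⟩
    · rintro ⟨e, he, h⟩
      refine ⟨fun f hf => ?_, ?_⟩
      · rcases hf with hf | hf
        · left; rw [hf, map_zero]
        · right; rw [h]; positivity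
      · change 0 < w.ord (algebraMap K L π)
        rw [h, hπ, mul_one]; exact_mod_cast he
  · intro w hw f
    obtain ⟨h1, h2⟩ := (hS w).1 hw
    exact over_of_dom v w ((hdom w).1 h1) hπ h2 f
  · rw [← hsum]
    refine Finset.sum_congr rfl fun w _ => ?_
    rw [relf_eq_one w v.O (fun c => ⟨algebraMap k v.O c, ?_⟩), mul_one]
    · rfl
    · rw [← IsScalarTower.algebraMap_apply k v.O L]

section hgtsec

open H116RR

variable {ι : Type*} [Fintype ι]

theorem vord_eq (v : Place k K) (w : Place k L) (e : ℕ)
    (h : ∀ f : K, w.ord (algebraMap K L f) = e * v.ord f) (y : ι → K) :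
    vord w (fun a => algebraMap K L (y a)) = e * vord v y := by
  classical
  unfold vord
  have hne : ∀ a, algebraMap K L (y a) ≠ 0 ↔ y a ≠ 0 := fun a => by simp
  have hset : (Finset.univ.filter (fun a => algebraMap K L (y a) ≠ 0)) =
      Finset.univ.filter (fun a => y a ≠ 0) := by
    ext a; simp
  by_cases hN : (Finset.univ.filter (fun a => y a ≠ 0)).Nonempty
  · have hN' : (Finset.univ.filter (fun a => algebraMap K L (y a) ≠ 0)).Nonempty := by
      rwa [hset]
    rw [dif_pos hN, dif_pos hN']
    apply le_antisymm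
    · obtain ⟨a, ha, hmin⟩ := Finset.exists_mem_eq_inf' hN (fun a => v.ord (y a))
      rw [hmin, ← h]
      exact Finset.inf'_le (fun a => w.ord (algebraMap K L (y a))) (by rwa [hset])
    · apply Finset.le_inf'
      intro a ha
      rw [h]
      rw [hset] at ha
      exact mul_le_mul_of_nonneg_left (Finset.inf'_le (fun a => v.ord (y a)) ha) (by positivity)
  · have hN' : ¬ (Finset.univ.filter (fun a => algebraMap K L (y a) ≠ 0)).Nonempty := by
      rwa [hset]
    rw [dif_neg hN, dif_neg hN', mul_zero]

theorem vord_ne_zero {v : Place k K} {y : ι → K} (h : vord v y ≠ 0) : ∃ a, v.ord (y a) ≠ 0 := by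
  classical
  unfold vord at h
  by_cases hN : (Finset.univ.filter (fun a => y a ≠ 0)).Nonempty
  · rw [dif_pos hN] at h
    obtain ⟨a, ha, hmin⟩ := Finset.exists_mem_eq_inf' hN (fun a => v.ord (y a))
    rw [hmin] at h
    exact ⟨a, h⟩
  · rw [dif_neg hN] at h; exact absurd rfl h

theorem vord_finite [IsAlgClosed k] [IsFF k K] (y : ι → K) :
    {v : Place k K | vord v y ≠ 0}.Finite := by
  refine (Set.finite_iUnion fun a : ι => finite_supp (k := k) (y a)).subset ?_
  intro v hv
  obtain ⟨a, ha⟩ := vord_ne_zero hv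
  exact Set.mem_iUnion.2 ⟨a, ha⟩

/-- Heights are multiplied by the degree in a finite separable extension. -/
theorem hgt_ext [IsAlgClosed k] [IsFF k K] [IsFF k L] [FiniteDimensional K L]
    [Algebra.IsSeparable K L] (y : ι → K) :
    hgt k (fun a => algebraMap K L (y a)) = finrank K L * hgt k y := by
  classical
  choose S e hS he hsum using fun v : Place k K => fund (k := k) (K := K) (L := L) v
  have hfin := vord_finite (k := k) y
  let T := hfin.toFinset
  have hT : ∀ v, v ∈ T ↔ vord v y ≠ 0 := fun v => by simp [T]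
  have hdisj : ∀ v ∈ T, ∀ v' ∈ T, v ≠ v' → Disjoint (S v) (S v') := by
    intro v _ v' _ hvv
    rw [Finset.disjoint_left]
    intro w hw hw'
    exact hvv (over_unique ((hS v w).1 hw) ((hS v' w).1 hw'))
  have hsupp : ∀ w : Place k L, vord w (fun a => algebraMap K L (y a)) ≠ 0 → w ∈ T.biUnion S := by
    intro w hw
    obtain ⟨v, hv⟩ := exists_over (k := k) (K := K) w
    have hwS := (hS v w).2 hv
    rw [vord_eq v w (e v w) (he v w hwS)] at hw
    rw [Finset.mem_biUnion]
    exact ⟨v, (hT v).2 (right_ne_zero_of_mul hw), hwS⟩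
  unfold hgt
  rw [finsum_eq_sum_of_support_subset (s := T.biUnion S) _ (fun w hw => hsupp w hw),
    finsum_eq_sum_of_support_subset (s := T) _ (fun v hv => (hT v).2 hv),
    Finset.sum_biUnion (fun v hv v' hv' h => hdisj v hv v' hv' h), mul_neg, Finset.mul_sum]
  congr 1
  refine Finset.sum_congr rfl fun v _ => ?_
  rw [← hsum v]
  push_cast
  rw [Finset.sum_mul]
  exact Finset.sum_congr rfl fun w hw => vord_eq v w (e v w) (he v w hw) y

end hgtsec

/-- A finite extension of a function field is a function field. -/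
theorem isFF_ext [h : IsFF k K] [FiniteDimensional K L] : IsFF k L := by
  have h1 := h.ess
  have h2 : Algebra.EssFiniteType K L := inferInstance
  refine ⟨Algebra.EssFiniteType.comp k K L, ?_⟩
  have h3 := lift_trdeg_add_eq k K L
  have h4 : Algebra.IsAlgebraic K L := inferInstance
  rw [_root_.trdeg_eq_zero_iff.2 h4, h.trdeg] at h3
  simpa using h3.symm

end ov

/-- Adjunction of the roots of a polynomial. -/
theorem exists_split {k K : Type} [Field k] [Field K] [Algebra k K] [IsFF k K]
    (p : Polynomial K) : ∃ (L : Type) (_ : Field L) (_ : Algebra k L) (_ : Algebra K L),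
      IsScalarTower k K L ∧ FiniteDimensional K L ∧ IsFF k L ∧ 
      Polynomial.Splits (p.map (algebraMap K L)) := by
  refine ⟨p.SplittingField, inferInstance, inferInstance, inferInstance, inferInstance,
    inferInstance, ?_, ?_⟩
  · exact isFF_ext (K := K)
  · exact Polynomial.SplittingField.splits p


open NefMod Polynomial in
/-- Cube roots of the differences of four distinct elements, after a finite extension. The
extension is separable in characteristic zero. -/
theorem exists_cub {k K : Type} [Field k] [Field K] [Algebra k K] [IsFF k K]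
    (a : Fin 4 → K) (ha : Function.Injective a) :
    ∃ (L : Type) (_ : Field L) (_ : Algebra k L) (_ : Algebra K L),
      IsScalarTower k K L ∧ FiniteDimensional K L ∧ IsFF k L ∧
      ∃ c : Cub L, c.a = fun i => algebraMap K L (a i) := by
  classical
  obtain ⟨L, hL1, hL2, hL3, hT, hfin, hFF, hsp⟩ := exists_split (k := k)
    (∏ i : Fin 4, ∏ j : Fin 4, (X ^ 3 - C (a i - a j)))
  refine ⟨L, hL1, hL2, hL3, hT, hfin, hFF, ?_⟩
  have hroot : ∀ i j, ∃ z : L, z ^ 3 = algebraMap K L (a i) - algebraMap K L (a j) := by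
    intro i j
    have hq0 : (X ^ 3 - C (a i - a j) : K[X]).Monic := monic_X_pow_sub_C _ (by norm_num)
    have hdvd : (X ^ 3 - C (a i - a j) : K[X]) ∣ ∏ i : Fin 4, ∏ j : Fin 4, (X ^ 3 - C (a i - a j)) :=
      (Finset.dvd_prod_of_mem (fun j => (X ^ 3 - C (a i - a j) : K[X])) (Finset.mem_univ j)).trans
        (Finset.dvd_prod_of_mem (fun i => ∏ j : Fin 4, (X ^ 3 - C (a i - a j) : K[X]))
          (Finset.mem_univ i))
    have hne : (∏ i : Fin 4, ∏ j : Fin 4, (X ^ 3 - C (a i - a j)) : K[X]) ≠ 0 := by
      refine Finset.prod_ne_zero_iff.2 fun i _ => Finset.prod_ne_zero_iff.2 fun j _ => ?_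
      exact (monic_X_pow_sub_C _ (by norm_num)).ne_zero
    have hs : ((X ^ 3 - C (a i - a j) : K[X]).map (algebraMap K L)).Splits := by
      refine Splits.of_dvd hsp ?_ (Polynomial.map_dvd _ hdvd)
      exact (Polynomial.map_ne_zero_iff (algebraMap K L).injective).2 hne
    obtain ⟨z, hz⟩ := hs.exists_eval_eq_zero (by
      rw [Polynomial.degree_map, degree_X_pow_sub_C (by norm_num)]; norm_num)
    refine ⟨z, ?_⟩
    rw [eval_map_algebraMap] at hz
    simp only [map_sub, map_pow, aeval_X, aeval_C] at hz
    linear_combination hz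
  choose z hz using hroot
  refine ⟨⟨fun i => algebraMap K L (a i), fun i j => if i < j then z i j else if j < i then - z j i else 0,
    (algebraMap K L).injective.comp ha, ?_, ?_⟩, rfl⟩
  · intro i j
    rcases lt_trichotomy i j with h | h | h
    · simp only [h, if_true]; exact hz i j
    · subst h; simp
    · simp only [h, if_true, not_lt.2 h.le, if_false]
      rw [Odd.neg_pow (by decide), hz]; ring
  · intro i j
    rcases lt_trichotomy i j with h | h | h
    · simp [h, not_lt.2 h.le]
    · subst h; simp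
    · simp [h, not_lt.2 h.le]

open NefMod H116RR in
/-- Everything together in characteristic zero: cube roots of the differences exist over a finite
extension, and all heights are multiplied by the same positive number. -/
theorem exists_cub_hgt {k K : Type} [Field k] [IsAlgClosed k] [CharZero k] [Field K] [Algebra k K]
    [IsFF k K] (a : Fin 4 → K) (ha : Function.Injective a) :
    ∃ (L : Type) (_ : Field L) (_ : Algebra k L) (_ : Algebra K L),
      IsScalarTower k K L ∧ IsFF k L ∧
      (∃ c : Cub L, c.a = fun i => algebraMap K L (a i)) ∧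
      ∃ n : ℕ, 0 < n ∧ ∀ (ι : Type) [Fintype ι] (y : ι → K),
        hgt k (fun i => algebraMap K L (y i)) = n * hgt k y := by
  obtain ⟨L, hL1, hL2, hL3, hT, hfin, hFF, hc⟩ := exists_cub (k := k) a ha
  have hch : CharZero K := charZero_of_injective_algebraMap (algebraMap k K).injective
  refine ⟨L, hL1, hL2, hL3, hT, hFF, hc, finrank K L, finrank_pos, fun ι _ y => hgt_ext y⟩

end H192E
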